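import Mathlib
import Pool.Agent.V11128.RowDet

namespace Pool.Agent.Results.MP_ba77d1_co.GrowthRate

open Matrix Filter Pool.Agent.V11128.RowDet

/-- `A` is an `n × n` zero-one matrix with exactly `k` ones in every row. -/
def IsRowMatrix (n k : ℕ) (A : Matrix (Fin n) (Fin n) ℝ) : Prop :=
  (∀ i j, A i j = 0 ∨ A i j = 1) ∧ ∀ i, ∑ j, A i j = k

/-- `M_R(n,k)`: the largest determinant of an `n × n` zero-one matrix with row sums `k`. -/
noncomputable def maxDet (n k : ℕ) : ℝ :=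
  sSup {d | ∃ A : Matrix (Fin n) (Fin n) ℝ, IsRowMatrix n k A ∧ d = A.det}

/-- `β₃ = (40/11)^(11/36) 2^(7/36)` -/
noncomputable def beta3 : ℝ := (40 / 11 : ℝ) ^ (11 / 36 : ℝ) * (2 : ℝ) ^ (7 / 36 : ℝ)

/-- every determinant is at most `24^(n/7)` -/
theorem det_le {n : ℕ} {A : Matrix (Fin n) (Fin n) ℝ} (hA : IsRowMatrix n 3 A) :
    A.det ≤ (24 : ℝ) ^ ((n : ℝ) / 7) := by
  by_cases h0 : A.det ≤ 0
  · exact h0.trans (by positivity)
  push Not at h0
  have h1 := det_bound 3 le_rfl A hA.1 hA.2 h0.ne'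
  have e1 : Real.log ((3 : ℝ) - 1) + Real.log ((3 : ℝ) ^ 2 / (3 - 1)) / ((3 : ℝ) ^ 2 - 3 + 1) =
      (2 / 7) * Real.log 24 := by
    have h2 : ((3 : ℝ) - 1) = 2 := by norm_num
    have h3 : ((3 : ℝ) ^ 2 / 2) = 9 / 2 := by norm_num
    have h4 : ((3 : ℝ) ^ 2 - 3 + 1) = 7 := by norm_num
    rw [h2, h3, h4]
    have h5 : Real.log (9 / 2) = 2 * Real.log 3 - Real.log 2 := by
      rw [Real.log_div (by norm_num) (by norm_num)]
      congr 1
      rw [show (9 : ℝ) = 3 ^ 2 by norm_num, Real.log_pow]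
      norm_num
    have h6 : Real.log 24 = 3 * Real.log 2 + Real.log 3 := by
      rw [show (24 : ℝ) = 2 ^ 3 * 3 by norm_num, Real.log_mul (by norm_num) (by norm_num),
        Real.log_pow]
      norm_num
    rw [h5, h6]
    ring
  rw [Fintype.card_fin] at h1
  push_cast at h1
  rw [e1, Real.log_pow] at h1
  push_cast at h1
  have h2 : Real.log A.det ≤ (n / 7) * Real.log 24 := by linarith
  rw [← Real.log_rpow (by norm_num)] at h2
  exact (Real.log_le_log_iff h0 (by positivity)).1 h2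

theorem bddAbove (n : ℕ) :
    BddAbove {d | ∃ A : Matrix (Fin n) (Fin n) ℝ, IsRowMatrix n 3 A ∧ d = A.det} :=
  ⟨(24 : ℝ) ^ ((n : ℝ) / 7), by
    rintro d ⟨A, hA, rfl⟩
    exact det_le hA⟩

theorem maxDet_le (n : ℕ) : maxDet n 3 ≤ (24 : ℝ) ^ ((n : ℝ) / 7) := by
  apply Real.sSup_le
  · rintro d ⟨A, hA, rfl⟩
    exact det_le hA
  · positivity

/-- `M_R(n,3)` is nonnegative -/
theorem maxDet_nonneg (n : ℕ) : 0 ≤ maxDet n 3 := by
  by_cases hne : ∃ A : Matrix (Fin n) (Fin n) ℝ, IsRowMatrix n 3 A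
  · obtain ⟨A, hA⟩ := hne
    by_cases hd : 0 ≤ A.det
    · exact hd.trans (le_csSup (bddAbove n) ⟨A, hA, rfl⟩)
    · push Not at hd
      -- swap two rows
      have hn : 2 ≤ n := by
        by_contra h
        have : n = 0 ∨ n = 1 := by omega
        rcases this with rfl | rfl
        · rw [Matrix.det_isEmpty] at hd
          linarith
        · rw [Matrix.det_unique] at hd
          rcases hA.1 default default with h | h <;> rw [h] at hd <;> linarith
      let i0 : Fin n := ⟨0, by omega⟩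
      let i1 : Fin n := ⟨1, by omega⟩
      have h01 : i0 ≠ i1 := by simp [i0, i1]
      have hB : IsRowMatrix n 3 (A.submatrix (Equiv.swap i0 i1) id) :=
        ⟨fun i j => hA.1 _ _, fun i => hA.2 _⟩
      have hdB : (A.submatrix (Equiv.swap i0 i1) id).det = - A.det := by
        rw [Matrix.det_permute, Equiv.Perm.sign_swap h01]
        simp
      have : 0 ≤ - A.det := by linarith
      exact this.trans (le_csSup (bddAbove n) ⟨_, hB, hdB.symm⟩)
  · have : {d | ∃ A : Matrix (Fin n) (Fin n) ℝ, IsRowMatrix n 3 A ∧ d = A.det} = ∅ := by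
      ext d
      simp only [Set.mem_empty_iff_false, iff_false]
      rintro ⟨A, hA, -⟩
      exact hne ⟨A, hA⟩
    rw [maxDet, this, Real.sSup_empty]

/-- incidence matrix of the Fano plane -/
def fano : Matrix (Fin 7) (Fin 7) ℤ := fun i j => if j = i ∨ j = i + 1 ∨ j = i + 3 then 1 else 0

theorem fano_mul : fano * fanoᵀ = fun i j => if i = j then 3 else 1 := by decide

theorem fano_det_sq : fano.det ^ 2 = 576 := by
  have h1 : fano.det ^ 2 = (fano * fanoᵀ).det := by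
    rw [Matrix.det_mul, Matrix.det_transpose, sq]
  rw [h1, fano_mul]
  have h2 : (((Matrix.det (fun i j : Fin 7 => if i = j then (3 : ℤ) else 1) : ℤ)) : ℝ) = 576 := by
    have h3 : (((Matrix.det (fun i j : Fin 7 => if i = j then (3 : ℤ) else 1) : ℤ)) : ℝ) =
        ((Int.castRingHom ℝ).mapMatrix (fun i j : Fin 7 => if i = j then (3 : ℤ) else 1)).det := by
      rw [← RingHom.map_det]
      rfl
    rw [h3]
    have h4 : (Int.castRingHom ℝ).mapMatrix (fun i j : Fin 7 => if i = j then (3 : ℤ) else 1) =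
        (2 : ℝ) • (1 + replicateCol Unit (fun _ : Fin 7 => (1 / 2 : ℝ)) *
          replicateRow Unit (fun _ : Fin 7 => (1 : ℝ))) := by
      ext i j
      simp only [RingHom.mapMatrix_apply, Matrix.map_apply, Matrix.smul_apply, Matrix.add_apply,
        Matrix.mul_apply, Matrix.replicateCol_apply, Matrix.replicateRow_apply,
        Finset.univ_unique, Finset.sum_singleton, smul_eq_mul, Matrix.one_apply]
      by_cases h : i = j
      · simp [h]; norm_num
      · simp [h]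
    rw [h4, Matrix.det_smul, Matrix.det_one_add_replicateCol_mul_replicateRow]
    simp [dotProduct]
    norm_num
  exact_mod_cast h2

theorem exists_block : ∃ B : Matrix (Fin 7) (Fin 7) ℝ, (∀ i j, B i j = 0 ∨ B i j = 1) ∧
    (∀ i, ∑ j, B i j = 3) ∧ B.det = 24 := by
  have h01 : ∀ i j, fano i j = 0 ∨ fano i j = 1 := by decide
  have hrow : ∀ i, ∑ j, fano i j = 3 := by decide
  have hdet : fano.det = 24 ∨ fano.det = -24 := by
    have h := fano_det_sq
    have h2 : (fano.det - 24) * (fano.det + 24) = 0 := by ring_nf; linarith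
    rcases mul_eq_zero.1 h2 with h3 | h3
    · left; linarith
    · right; linarith
  have key : ∀ N : Matrix (Fin 7) (Fin 7) ℤ, (∀ i j, N i j = 0 ∨ N i j = 1) →
      (∀ i, ∑ j, N i j = 3) → N.det = 24 → ∃ B : Matrix (Fin 7) (Fin 7) ℝ,
      (∀ i j, B i j = 0 ∨ B i j = 1) ∧ (∀ i, ∑ j, B i j = 3) ∧ B.det = 24 := by
    intro N h1 h2 h3
    refine ⟨(Int.castRingHom ℝ).mapMatrix N, fun i j => ?_, fun i => ?_, ?_⟩
    · rcases h1 i j with h | h <;> simp [h]
    · have : ∑ j, ((N i j : ℤ) : ℝ) = ((∑ j, N i j : ℤ) : ℝ) := by push_cast; rfl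
      simp only [RingHom.mapMatrix_apply, Matrix.map_apply, eq_intCast]
      rw [this, h2]
      norm_num
    · rw [← RingHom.map_det, h3]
      norm_num
  rcases hdet with h | h
  · exact key fano h01 hrow h
  · refine key (fano.submatrix (Equiv.swap 0 1) id) (fun i j => h01 _ _) (fun i => hrow _) ?_
    rw [Matrix.det_permute, Equiv.Perm.sign_swap (by decide), h]
    norm_num

theorem maxDet_ge (t : ℕ) : (24 : ℝ) ^ t ≤ maxDet (7 * t) 3 := by
  obtain ⟨B, h1, h2, h3⟩ := exists_block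
  let e : Fin (7 * t) ≃ Fin 7 × Fin t := finProdFinEquiv.symm
  set A : Matrix (Fin (7 * t)) (Fin (7 * t)) ℝ :=
    (Matrix.blockDiagonal (fun _ : Fin t => B)).submatrix e e with hA
  apply le_csSup (bddAbove _)
  refine ⟨A, ⟨fun i j => ?_, fun i => ?_⟩, ?_⟩
  · rw [hA, Matrix.submatrix_apply, Matrix.blockDiagonal_apply]
    split_ifs
    · exact h1 _ _
    · exact Or.inl rfl
  · have : ∑ j, A i j = ∑ q : Fin 7 × Fin t, Matrix.blockDiagonal (fun _ : Fin t => B) (e i) q := by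
      rw [← Equiv.sum_comp e]
      rfl
    rw [this, Fintype.sum_prod_type]
    simp only [Matrix.blockDiagonal_apply]
    rw [show ((3 : ℕ) : ℝ) = 3 by norm_num, ← h2 (e i).1]
    refine Finset.sum_congr rfl fun a _ => ?_
    simp
  · rw [hA, Matrix.det_submatrix_equiv_self, Matrix.det_blockDiagonal]
    simp [h3]

/-- `limsup M_R(n,3)^(1/n) = 24^(1/7) < β₃`. -/
theorem result : limsup (fun n : ℕ => maxDet n 3 ^ (1 / (n : ℝ))) atTop = (24 : ℝ) ^ (1 / 7 : ℝ) ∧
    limsup (fun n : ℕ => maxDet n 3 ^ (1 / (n : ℝ))) atTop < beta3 := by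
  have hup : ∀ n : ℕ, 0 < n → maxDet n 3 ^ (1 / (n : ℝ)) ≤ (24 : ℝ) ^ (1 / 7 : ℝ) := by
    intro n hn
    have hn' : (0 : ℝ) < n := by exact_mod_cast hn
    have h1 := Real.rpow_le_rpow (maxDet_nonneg n) (maxDet_le n)
      (by positivity : (0 : ℝ) ≤ 1 / (n : ℝ))
    rw [← Real.rpow_mul (by norm_num)] at h1
    have : (n : ℝ) / 7 * (1 / n) = 1 / 7 := by field_simp
    rwa [this] at h1
  have hlow : ∀ t : ℕ, 0 < t → (24 : ℝ) ^ (1 / 7 : ℝ) ≤
      maxDet (7 * t) 3 ^ (1 / (((7 * t : ℕ)) : ℝ)) := by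
    intro t ht
    have ht' : (0 : ℝ) < t := by exact_mod_cast ht
    have h1 := Real.rpow_le_rpow (by positivity) (maxDet_ge t)
      (by positivity : (0 : ℝ) ≤ 1 / (((7 * t : ℕ)) : ℝ))
    refine le_trans (le_of_eq ?_) h1
    rw [← Real.rpow_natCast, ← Real.rpow_mul (by norm_num)]
    congr 1
    push_cast
    field_simp
  have hlim : limsup (fun n : ℕ => maxDet n 3 ^ (1 / (n : ℝ))) atTop = (24 : ℝ) ^ (1 / 7 : ℝ) := by
    have hev : ∀ᶠ n : ℕ in atTop, maxDet n 3 ^ (1 / (n : ℝ)) ≤ (24 : ℝ) ^ (1 / 7 : ℝ) := by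
      filter_upwards [eventually_gt_atTop 0] with n hn
      exact hup n hn
    have hfr : ∃ᶠ n : ℕ in atTop, (24 : ℝ) ^ (1 / 7 : ℝ) ≤ maxDet n 3 ^ (1 / (n : ℝ)) := by
      rw [frequently_atTop]
      intro a
      exact ⟨7 * (a + 1), by omega, hlow (a + 1) (by omega)⟩
    apply le_antisymm
    · apply limsup_le_of_le _ hev
      exact IsCoboundedUnder.of_frequently_ge hfr
    · exact le_limsup_of_frequently_le hfr ⟨_, hev⟩
  refine ⟨hlim, ?_⟩
  rw [hlim, beta3]
  -- compare the 252nd powers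
  have h1 : ((24 : ℝ) ^ (1 / 7 : ℝ)) ^ (252 : ℕ) <
      ((40 / 11 : ℝ) ^ (11 / 36 : ℝ) * (2 : ℝ) ^ (7 / 36 : ℝ)) ^ (252 : ℕ) := by
    rw [mul_pow, ← Real.rpow_natCast, ← Real.rpow_natCast, ← Real.rpow_natCast,
      ← Real.rpow_mul (by norm_num), ← Real.rpow_mul (by norm_num), ← Real.rpow_mul (by norm_num)]
    have e1 : (1 / 7 : ℝ) * ((252 : ℕ) : ℝ) = ((36 : ℕ) : ℝ) := by norm_num
    have e2 : (11 / 36 : ℝ) * ((252 : ℕ) : ℝ) = ((77 : ℕ) : ℝ) := by norm_num
    have e3 : (7 / 36 : ℝ) * ((252 : ℕ) : ℝ) = ((49 : ℕ) : ℝ) := by norm_num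
    rw [e1, e2, e3, Real.rpow_natCast, Real.rpow_natCast, Real.rpow_natCast]
    norm_num
  exact lt_of_pow_lt_pow_left₀ 252 (by positivity) h1

end Pool.Agent.Results.MP_ba77d1_co.GrowthRate
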